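import Pool.Agent.Helper23.MC.Goals2
import Pool.Agent.Helper42.CG.LB
import Pool.Agent.Helper67.CG.WT
import Pool.Agent.Helper24.PP.MA

/-!
# MP_69be96_nt, project MC, packet LV: lower bound for the primes under the weight

Adapted from `Pool/Agent/Helper42/CG/LB.lean`.
-/

set_option autoImplicit false

open Finset Filter Topology

open scoped Classical

namespace Pool.Agent.Helper54.MC

open Pool.Agent.Helper88.PP (pr Rg om Sf SS uu vv ee LA VV QQ cost)
open Pool.Agent.Helper88.RR (gg ab TB WB nz DB VM)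
open Pool.Agent.Helper88.GM (NI XI gB In)
open Pool.Agent.Helper88.CG (tw pw th ic DS sg CN qE mE)
open Pool.Agent.Helper23.MC
open Pool.Agent.Helper85.RR (ab_nonneg mem_TB card_TB prod_TB WB_eq DB_eq one_le_DB)
open Pool.Agent.Helper3.PP (om_nonneg mem_SS mem_LA LA_sub)
open Pool.Agent.Helper42.CG (pw_nonneg pw_le_one XI_nonneg DS' DS'_nonneg Sn prod_ic bad_small)

/-! ## Label functions on a union -/

section Union

variable {P B : Finset ℕ}

/-- the combination of two label functions -/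
noncomputable def comb (t : (P → ℕ) × (B → ℕ)) : ((P ∪ B : Finset ℕ)) → ℕ := fun i =>
  if h : (i : ℕ) ∈ P then t.1 ⟨i, h⟩ else if h' : (i : ℕ) ∈ B then t.2 ⟨i, h'⟩ else 0

/-- restriction to `P` -/
def rP (t : ((P ∪ B : Finset ℕ)) → ℕ) : P → ℕ :=
  fun i => t ⟨i, Finset.mem_union_left _ i.2⟩

/-- restriction to `B` -/
def rB (t : ((P ∪ B : Finset ℕ)) → ℕ) : B → ℕ :=
  fun i => t ⟨i, Finset.mem_union_right _ i.2⟩

theorem rP_comb (t : (P → ℕ) × (B → ℕ)) : rP (comb t) = t.1 := by
  funext i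
  unfold rP comb
  simp [i.2]

theorem rB_comb (h : Disjoint P B) (t : (P → ℕ) × (B → ℕ)) : rB (comb t) = t.2 := by
  funext i
  have h1 : (i : ℕ) ∉ P := fun h2 => Finset.disjoint_left.1 h h2 i.2
  unfold rB comb
  simp [i.2, h1]

theorem comb_inj (h : Disjoint P B) : Function.Injective (comb (P := P) (B := B)) := by
  intro t t' htt
  refine Prod.ext ?_ ?_
  · rw [← rP_comb t, ← rP_comb t', htt]
  · rw [← rB_comb h t, ← rB_comb h t', htt]

theorem prod_un {M : Type} [CommMonoid M] (h : Disjoint P B)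
    (f : ((P ∪ B : Finset ℕ)) → M) :
    ∏ i, f i = (∏ i : P, f ⟨i, Finset.mem_union_left _ i.2⟩) *
      ∏ i : B, f ⟨i, Finset.mem_union_right _ i.2⟩ := by
  set g : ℕ → M := fun n => if h : n ∈ P ∪ B then f ⟨n, h⟩ else 1 with hg
  have h1 : ∏ i : ((P ∪ B : Finset ℕ)), f i = ∏ i : ((P ∪ B : Finset ℕ)), g i := by
    refine Finset.prod_congr rfl fun i _ => ?_
    rw [hg]
    simp only [Finset.coe_mem, dif_pos]
  have h2 : ∏ i : P, f ⟨i, Finset.mem_union_left _ i.2⟩ = ∏ i : P, g i := by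
    refine Finset.prod_congr rfl fun i _ => ?_
    have : (i : ℕ) ∈ P ∪ B := Finset.mem_union_left _ i.2
    rw [hg]
    simp only [this, dif_pos]
  have h3 : ∏ i : B, f ⟨i, Finset.mem_union_right _ i.2⟩ = ∏ i : B, g i := by
    refine Finset.prod_congr rfl fun i _ => ?_
    have : (i : ℕ) ∈ P ∪ B := Finset.mem_union_right _ i.2
    rw [hg]
    simp only [this, dif_pos]
  rw [h1, h2, h3, Finset.prod_coe_sort, Finset.prod_coe_sort, Finset.prod_coe_sort,
    Finset.prod_union h]

theorem comb_P (t : (P → ℕ) × (B → ℕ)) (i : P) :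
    comb t ⟨i, Finset.mem_union_left _ i.2⟩ = t.1 i := by
  have := congrFun (rP_comb t) i
  exact this

theorem comb_B (h : Disjoint P B) (t : (P → ℕ) × (B → ℕ)) (i : B) :
    comb t ⟨i, Finset.mem_union_right _ i.2⟩ = t.2 i := by
  have := congrFun (rB_comb h t) i
  exact this

/-- a point of the union -/
theorem un_cases {p : ((P ∪ B : Finset ℕ)) → Prop}
    (h1 : ∀ i : P, p ⟨i, Finset.mem_union_left _ i.2⟩)
    (h2 : ∀ i : B, (i : ℕ) ∉ P → p ⟨i, Finset.mem_union_right _ i.2⟩) : ∀ i, p i := by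
  intro i
  by_cases h : (i : ℕ) ∈ P
  · exact h1 ⟨i, h⟩
  · have h' : (i : ℕ) ∈ B := by
      have := i.2
      rw [Finset.mem_union] at this
      exact this.resolve_left h
    exact h2 ⟨i, h'⟩ h

end Union

/-- the indicator of roughness at the points of `B` -/
theorem prod_icB (y z n : ℕ) (B : Finset ℕ) (s : B → ℕ) (hs : ∀ i, s i ≠ 0) :
    ∏ i : B, ic y z (sg (s i)) (n + (i : ℕ)) = if ∀ i ∈ B, Rg y z (n + i) then 1 else 0 := by
  have h0 : ∀ i : B, ic y z (sg (s i)) (n + (i : ℕ)) = if Rg y z (n + i) then 1 else 0 := by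
    intro i
    unfold ic sg
    simp [hs i]
  by_cases h : ∀ i ∈ B, Rg y z (n + i)
  · rw [if_pos h]
    refine Finset.prod_eq_one fun i _ => ?_
    rw [h0 i, if_pos (h i i.2)]
  · rw [if_neg h]
    push Not at h
    obtain ⟨i, hi, hi'⟩ := h
    refine Finset.prod_eq_zero (Finset.mem_univ (⟨i, hi⟩ : B)) ?_
    rw [h0, if_neg hi']

/-- the second moment for our parameters -/
theorem moment {C CB C' : ℝ} (hC : 1 ≤ C) (hCB : 1 ≤ CB) (hC' : 1 ≤ C')
    (E z x y j m q K K0 : ℕ) (P B N : Finset ℕ) (hPB : Disjoint P B) (hB : B.card ≤ K0)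
    (hE : 1 ≤ E) (hz : 2 ≤ z) (hm : 1 ≤ m) (hqm : q * m ≤ E / 32)
    (hK : 2 * (E / 32 / m) + K0 ≤ K)
    (h1 : ∀ d ∈ SS z (z ^ (E / 32)),
      (d : ℝ) * ∑ r ∈ (LA z m (q * m)).filter (fun r => d ∣ r), ab m q z r ≤ CB)
    (h2 : ∀ d ∈ SS z (z ^ (E / 32)),
      (d : ℝ) * ∑ r ∈ (SS z (z ^ (E / 32))).filter (fun r => d ∣ r), 1 / (Nat.totient r : ℝ)
        ≤ CB * ∑ r ∈ SS z (z ^ (E / 32)), 1 / (Nat.totient r : ℝ))
    (h3 : ∑ r ∈ SS z (z ^ (E / 32)), 1 / (Nat.totient r : ℝ) ≤ C' * (E / 32 : ℕ))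
    (T : Finset (B → ℕ)) (κ : (B → ℕ) → ℝ) (hAd : Ad C E z B T κ) :
    |∑ n ∈ N, pw x (n + j) * (WB m q (E / 32) z y P n ^ 2 * VH y z B T κ n ^ 2) -
      NH B T κ * ∑ n ∈ N, (if ∀ i ∈ B, Rg y z (n + i) then pw x (n + j) else 0) *
        DS' m q (E / 32) z P (Sn y z P n)| ≤
    C ^ 2 * ∑ d ∈ (DS z (z ^ (2 * (E / 16))) K : Finset ((P ∪ B : Finset ℕ) → ℕ)),
      (∏ i, (if d i = 0 then 1 else 3 * (CB * C') ^ 2 * 3 ^ (d i).primeFactors.card)) *
      |CN x y z j N d
        - CN x y z j N (fun i => sg (d i)) *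
          ∏ i, (if d i = 0 then 1 else 1 / (d i : ℝ))| := by
  have hz0 : 1 ≤ z := by omega
  have hC0 : 0 < C := by linarith only [hC]
  have hE0 : (0 : ℝ) < E := by exact_mod_cast hE
  have hSS0 : ∀ r, r ∈ SS z (z ^ (E / 32)) → r ≠ 0 := by
    intro r hr
    have := (mem_SS.mp hr).1.1
    omega
  have hLA0 : ∀ r, r ∈ LA z m (q * m) → r ≠ 0 := fun r hr =>
    hSS0 r (LA_sub hz0 hqm hr)
  have hLA1 : ∀ r, r ∈ LA z m (q * m) → r ≠ 1 := by
    intro r hr h
    have h6 := (mem_LA.mp hr).2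
    have h7 : z ^ 1 ≤ z ^ m := Nat.pow_le_pow_right hz0 hm
    rw [pow_one] at h7
    omega
  obtain ⟨hA1, hA2, hA3⟩ := hAd
  set T' : Finset ((P ∪ B : Finset ℕ) → ℕ) :=
    (TB m q (E / 32) z P ×ˢ T).image comb with hT'
  set cc : ((P ∪ B : Finset ℕ) → ℕ) → ℝ := fun t =>
    (∏ i : P, (if rP t i = 0 then 1 else - ab m q z (rP t i))) * (κ (rB t) / C) with hcc
  set al : (P ∪ B : Finset ℕ) → ℕ → ℝ := fun i r => if (i : ℕ) ∈ P then
    (if r = 0 then 1 else if r ∈ LA z m (q * m) then ab m q z r else 0) else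
      1 / ((E : ℝ) * (Nat.totient r : ℝ)) with hal
  have hmem : ∀ t ∈ T', ∃ r ∈ TB m q (E / 32) z P, ∃ s ∈ T, comb (r, s) = t := by
    intro t ht
    rw [hT', Finset.mem_image] at ht
    obtain ⟨p, hp, rfl⟩ := ht
    rw [Finset.mem_product] at hp
    exact ⟨p.1, hp.1, p.2, hp.2, rfl⟩
  have hsum : ∀ f : ((P ∪ B : Finset ℕ) → ℕ) → ℝ, ∑ t ∈ T', f t =
      ∑ r ∈ TB m q (E / 32) z P, ∑ s ∈ T, f (comb (r, s)) := by
    intro f
    rw [hT', Finset.sum_image (fun a _ b _ hab => comb_inj hPB hab), Finset.sum_product]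
  have hccc : ∀ (r : P → ℕ) (s : B → ℕ), cc (comb (r, s)) =
      (∏ i : P, (if r i = 0 then 1 else - ab m q z (r i))) * (κ s / C) := by
    intro r s
    rw [hcc]
    simp only [rP_comb, rB_comb hPB]
  have key := Pool.Agent.Helper67.CG.wt ((P ∪ B : Finset ℕ)) (fun i => (i : ℕ)) y z
    (z ^ (E / 32)) (z ^ (2 * (E / 16))) K N (fun n => pw x (n + j)) (CB * C')
    (fun d => CN x y z j N d) T' cc al ?_ ?_ ?_ ?_ ?_ ?_ ?_ ?_ ?_
  · -- conclusion
    have e1 : ∀ n, ∑ r ∈ T', cc r * ∏ i, vv y z (r i) (n + (i : ℕ)) =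
        WB m q (E / 32) z y P n * VH y z B T κ n / C := by
      intro n
      rw [hsum, WB_eq, VH, Finset.sum_mul_sum, Finset.sum_div]
      refine Finset.sum_congr rfl fun r _ => ?_
      rw [Finset.sum_div]
      refine Finset.sum_congr rfl fun s _ => ?_
      rw [hccc, prod_un hPB]
      simp only [comb_P, comb_B hPB]
      ring
    have e2 : ∑ r ∈ T', cc r ^ 2 * (CN x y z j N (fun i => sg (r i)) *
          ∏ i, (if r i = 0 then 1 else (Nat.totient (r i) : ℝ))) =
        (NH B T κ * ∑ n ∈ N, (if ∀ i ∈ B, Rg y z (n + i) then pw x (n + j) else 0) *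
        DS' m q (E / 32) z P (Sn y z P n)) / C ^ 2 := by
      rw [hsum]
      have e3 : ∀ r ∈ TB m q (E / 32) z P, ∀ s ∈ T,
          cc (comb (r, s)) ^ 2 * (CN x y z j N (fun i => sg (comb (r, s) i)) *
          ∏ i, (if comb (r, s) i = 0 then 1 else (Nat.totient (comb (r, s) i) : ℝ))) =
          (κ s ^ 2 * ∏ i : B, (Nat.totient (s i) : ℝ)) *
          (∑ n ∈ N, (if ∀ i ∈ B, Rg y z (n + i) then pw x (n + j) else 0) *
            (if ∀ i, r i ≠ 0 → (i : ℕ) ∈ Sn y z P n then
              ∏ i : P, (if r i = 0 then 1 else ab m q z (r i) ^ 2 * (Nat.totient (r i) : ℝ))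
              else 0)) / C ^ 2 := by
        intro r hr s hs
        have hs0 : ∀ i, s i ≠ 0 := fun i => hSS0 _ (hA1 s hs i)
        have e4 : ∏ i, (if comb (r, s) i = 0 then 1 else (Nat.totient (comb (r, s) i) : ℝ)) =
            (∏ i : P, (if r i = 0 then 1 else (Nat.totient (r i) : ℝ))) *
              ∏ i : B, (Nat.totient (s i) : ℝ) := by
          rw [prod_un hPB]
          simp only [comb_P, comb_B hPB]
          congr 1
          refine Finset.prod_congr rfl fun i _ => ?_
          rw [if_neg (hs0 i)]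
        have e5 : CN x y z j N (fun i => sg (comb (r, s) i)) =
            ∑ n ∈ N, (if ∀ i ∈ B, Rg y z (n + i) then pw x (n + j) else 0) *
              (if ∀ i, r i ≠ 0 → (i : ℕ) ∈ Sn y z P n then 1 else 0) := by
          unfold CN
          refine Finset.sum_congr rfl fun n _ => ?_
          rw [prod_un hPB]
          simp only [comb_P, comb_B hPB]
          rw [prod_ic, prod_icB y z n B s hs0]
          split_ifs <;> ring
        have e6 : (∏ i : P, (if r i = 0 then (1 : ℝ) else - ab m q z (r i))) ^ 2 *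
            ∏ i : P, (if r i = 0 then 1 else (Nat.totient (r i) : ℝ)) =
            ∏ i : P, (if r i = 0 then 1 else
              ab m q z (r i) ^ 2 * (Nat.totient (r i) : ℝ)) := by
          rw [← Finset.prod_pow, ← Finset.prod_mul_distrib]
          refine Finset.prod_congr rfl fun i _ => ?_
          split_ifs <;> ring
        have e7 : ∑ n ∈ N, (if ∀ i ∈ B, Rg y z (n + i) then pw x (n + j) else 0) *
            (if ∀ i, r i ≠ 0 → (i : ℕ) ∈ Sn y z P n then
              ∏ i : P, (if r i = 0 then 1 else ab m q z (r i) ^ 2 * (Nat.totient (r i) : ℝ))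
              else 0) =
            (∑ n ∈ N, (if ∀ i ∈ B, Rg y z (n + i) then pw x (n + j) else 0) *
              (if ∀ i, r i ≠ 0 → (i : ℕ) ∈ Sn y z P n then 1 else 0)) *
            ∏ i : P, (if r i = 0 then 1 else
              ab m q z (r i) ^ 2 * (Nat.totient (r i) : ℝ)) := by
          rw [Finset.sum_mul]
          refine Finset.sum_congr rfl fun n _ => ?_
          split_ifs <;> ring
        rw [hccc, e4, e5, e7, ← e6]
        field_simp
      have e8 : ∑ n ∈ N, (if ∀ i ∈ B, Rg y z (n + i) then pw x (n + j) else 0) *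
          DS' m q (E / 32) z P (Sn y z P n) =
          ∑ r ∈ TB m q (E / 32) z P,
            ∑ n ∈ N, (if ∀ i ∈ B, Rg y z (n + i) then pw x (n + j) else 0) *
            (if ∀ i, r i ≠ 0 → (i : ℕ) ∈ Sn y z P n then
              ∏ i : P, (if r i = 0 then 1 else ab m q z (r i) ^ 2 * (Nat.totient (r i) : ℝ))
              else 0) := by
        unfold DS'
        rw [Finset.sum_comm]
        refine Finset.sum_congr rfl fun n _ => ?_
        rw [Finset.mul_sum]
      rw [e8, Finset.mul_sum, Finset.sum_div]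
      refine Finset.sum_congr rfl fun r hr => ?_
      unfold NH
      rw [Finset.sum_mul, Finset.sum_div]
      exact Finset.sum_congr rfl fun s hs => e3 r hr s hs
    simp only [e1] at key
    rw [e2] at key
    have e9 : ∑ n ∈ N, pw x (n + j) * (WB m q (E / 32) z y P n * VH y z B T κ n / C) ^ 2 =
        (∑ n ∈ N, pw x (n + j) * (WB m q (E / 32) z y P n ^ 2 * VH y z B T κ n ^ 2)) / C ^ 2 := by
      rw [Finset.sum_div]
      refine Finset.sum_congr rfl fun n _ => ?_
      rw [div_pow, mul_pow]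
      ring
    rw [e9, ← sub_div, abs_div, abs_of_pos (by positivity : (0 : ℝ) < C ^ 2),
      div_le_iff₀ (by positivity)] at key
    refine key.trans (le_of_eq ?_)
    rw [mul_comm]
    rfl
  · nlinarith only [hCB, hC']
  · -- labels
    intro t ht
    obtain ⟨r, hr, s, hs, rfl⟩ := hmem t ht
    refine un_cases (fun i => ?_) (fun i hi => ?_)
    · rw [comb_P]
      rcases (mem_TB hr).1 i with h | h
      · exact Or.inl h
      · exact Or.inr (LA_sub hz0 hqm h)
    · rw [comb_B hPB]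
      exact Or.inr (hA1 s hs i)
  · -- labels `1`
    intro t ht t' ht'
    obtain ⟨r, hr, s, hs, rfl⟩ := hmem t ht
    obtain ⟨r', hr', s', hs', rfl⟩ := hmem t' ht'
    refine un_cases (fun i => ?_) (fun i hi => ?_)
    · rw [comb_P, comb_P]
      intro hi
      rcases (mem_TB hr).1 i with h | h
      · simp only at hi
        omega
      · exact absurd hi (hLA1 _ h)
    · rw [comb_B hPB, comb_B hPB]
      intro _
      exact hSS0 _ (hA1 s' hs' i)
  · -- products
    intro t ht
    obtain ⟨r, hr, s, hs, rfl⟩ := hmem t ht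
    rw [prod_un hPB]
    simp only [comb_P, comb_B hPB]
    have h5 : ∏ i : P, max 1 (r i) ≤ z ^ (E / 32) := prod_TB hz hr
    have h6 : ∏ i : B, max 1 (s i) ≤ z ^ (E / 32) := by
      refine le_of_eq_of_le (Finset.prod_congr rfl fun i _ => ?_) (hA2 s hs)
      have := hSS0 _ (hA1 s hs i)
      omega
    calc ((∏ i : P, max 1 (r i)) * ∏ i : B, max 1 (s i)) ^ 2
        ≤ (z ^ (E / 32) * z ^ (E / 32)) ^ 2 := Nat.pow_le_pow_left (Nat.mul_le_mul h5 h6) 2
      _ = z ^ (4 * (E / 32)) := by rw [← pow_add, ← pow_mul]; congr 1; ring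
      _ ≤ z ^ (2 * (E / 16)) := Nat.pow_le_pow_right hz0 (by omega)
  · -- number of nonzero labels
    intro t ht t' ht'
    obtain ⟨r, hr, s, hs, rfl⟩ := hmem t ht
    obtain ⟨r', hr', s', hs', rfl⟩ := hmem t' ht'
    have h5 := card_TB hm hz hr
    have h6 := card_TB hm hz hr'
    unfold nz at h5 h6
    have h7 : (univ.filter (fun i : ((P ∪ B : Finset ℕ)) =>
        comb (r, s) i ≠ 0 ∨ comb (r', s') i ≠ 0)) ⊆
        ((univ.filter (fun i : P => r i ≠ 0)).image
          (fun i : P => (⟨i, Finset.mem_union_left _ i.2⟩ : ((P ∪ B : Finset ℕ)))) ∪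
        (univ.filter (fun i : P => r' i ≠ 0)).image
          (fun i : P => (⟨i, Finset.mem_union_left _ i.2⟩ : ((P ∪ B : Finset ℕ))))) ∪
        (univ : Finset B).image
          (fun i : B => (⟨i, Finset.mem_union_right _ i.2⟩ : ((P ∪ B : Finset ℕ)))) := by
      intro i
      revert i
      refine un_cases (fun i => ?_) (fun i hi => ?_)
      · intro h
        rw [Finset.mem_filter, comb_P, comb_P] at h
        rw [Finset.mem_union, Finset.mem_union]
        left
        rcases h.2 with h | h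
        · exact Or.inl (Finset.mem_image.2 ⟨i, Finset.mem_filter.2 ⟨Finset.mem_univ _, h⟩, rfl⟩)
        · exact Or.inr (Finset.mem_image.2 ⟨i, Finset.mem_filter.2 ⟨Finset.mem_univ _, h⟩, rfl⟩)
      · intro _
        rw [Finset.mem_union]
        right
        exact Finset.mem_image.2 ⟨i, Finset.mem_univ _, rfl⟩
    refine (Finset.card_le_card h7).trans ?_
    refine (Finset.card_union_le _ _).trans ?_
    have h8 := Finset.card_union_le ((univ.filter (fun i : P => r i ≠ 0)).image
          (fun i : P => (⟨i, Finset.mem_union_left _ i.2⟩ : ((P ∪ B : Finset ℕ)))))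
        ((univ.filter (fun i : P => r' i ≠ 0)).image
          (fun i : P => (⟨i, Finset.mem_union_left _ i.2⟩ : ((P ∪ B : Finset ℕ)))))
    have h9 := Finset.card_image_le (s := univ.filter (fun i : P => r i ≠ 0))
      (f := fun i : P => (⟨i, Finset.mem_union_left _ i.2⟩ : ((P ∪ B : Finset ℕ))))
    have h10 := Finset.card_image_le (s := univ.filter (fun i : P => r' i ≠ 0))
      (f := fun i : P => (⟨i, Finset.mem_union_left _ i.2⟩ : ((P ∪ B : Finset ℕ))))
    have h11 := Finset.card_image_le (s := (univ : Finset B))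
      (f := fun i : B => (⟨i, Finset.mem_union_right _ i.2⟩ : ((P ∪ B : Finset ℕ))))
    rw [Finset.card_univ, Fintype.card_coe] at h11
    omega
  · -- `al` is nonnegative
    intro i r
    have h5 := ab_nonneg m q z r
    rw [hal]
    simp only
    split_ifs <;> positivity
  · intro i
    rw [hal]
    simp only
    split_ifs <;> simp
  · -- coefficients
    intro t ht
    obtain ⟨r, hr, s, hs, rfl⟩ := hmem t ht
    rw [hccc, prod_un hPB]
    simp only [comb_P, comb_B hPB]
    rw [abs_mul]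
    refine mul_le_mul ?_ ?_ (abs_nonneg _) ?_
    · rw [Finset.abs_prod]
      refine Finset.prod_le_prod (fun i _ => abs_nonneg _) fun i _ => ?_
      rw [hal]
      simp only [Finset.coe_mem, if_true]
      rcases (mem_TB hr).1 i with h | h
      · simp [h]
      · rw [if_neg (hLA0 _ h), if_neg (hLA0 _ h), if_pos h, abs_neg,
          abs_of_nonneg (ab_nonneg _ _ _ _)]
    · rw [abs_div, abs_of_pos hC0, div_le_iff₀ hC0, mul_comm]
      refine (hA3 s hs).trans (le_of_eq ?_)
      congr 1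
      refine Finset.prod_congr rfl fun i _ => ?_
      rw [hal]
      have : (i : ℕ) ∉ P := fun h => Finset.disjoint_left.1 hPB h i.2
      simp only [this, if_false]
    · refine Finset.prod_nonneg fun i _ => ?_
      have h5 := ab_nonneg m q z (r i)
      rw [hal]
      simp only
      split_ifs <;> positivity
  · -- sums
    intro i d hd
    by_cases hi : (i : ℕ) ∈ P
    · have h5 : ∀ r ∈ (SS z (z ^ (E / 32))).filter (fun r => d ∣ r), al i r =
          if r ∈ LA z m (q * m) then ab m q z r else 0 := by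
        intro r hr
        rw [hal]
        simp only [hi, if_true]
        rw [if_neg (hSS0 r (Finset.mem_filter.mp hr).1)]
      rw [Finset.sum_congr rfl h5, ← Finset.sum_filter]
      have h6 : ((SS z (z ^ (E / 32))).filter (fun r => d ∣ r)).filter
          (fun r => r ∈ LA z m (q * m)) = (LA z m (q * m)).filter (fun r => d ∣ r) := by
        ext r
        simp only [Finset.mem_filter]
        constructor
        · rintro ⟨⟨_, h7⟩, h8⟩
          exact ⟨h8, h7⟩
        · rintro ⟨h7, h8⟩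
          exact ⟨⟨LA_sub hz0 hqm h7, h8⟩, h7⟩
      rw [h6]
      refine (h1 d hd).trans ?_
      nlinarith only [hC', hCB]
    · have h5 : ∀ r ∈ (SS z (z ^ (E / 32))).filter (fun r => d ∣ r), al i r =
          1 / (Nat.totient r : ℝ) * (1 / E) := by
        intro r hr
        rw [hal]
        simp only [hi, if_false]
        rw [one_div_mul_one_div, mul_comm]
      rw [Finset.sum_congr rfl h5, ← Finset.sum_mul, ← mul_assoc]
      have h6 := h2 d hd
      have h7 : CB * ∑ r ∈ SS z (z ^ (E / 32)), 1 / (Nat.totient r : ℝ) ≤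
          CB * (C' * (E / 32 : ℕ)) := mul_le_mul_of_nonneg_left h3 (by linarith only [hCB])
      have h8 : ((E / 32 : ℕ) : ℝ) ≤ E := by exact_mod_cast Nat.div_le_self E 32
      have h9 : CB * (C' * (E / 32 : ℕ)) ≤ CB * C' * E := by
        rw [← mul_assoc]
        exact mul_le_mul_of_nonneg_left h8 (by nlinarith only [hCB, hC'])
      rw [mul_one_div, div_le_iff₀ hE0]
      linarith only [h6, h7, h9]

/-- a constant is absorbed by the exponential -/
theorem exp_abs (c L : ℝ) (hc : 0 < c) (hL : 1 ≤ L) : ∃ E0 : ℕ, ∀ E : ℕ, E0 ≤ E →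
    L * Real.exp (-(c * E)) ≤ Real.exp (-(c / 2 * E)) := by
  obtain ⟨E0, hE0⟩ := exists_nat_ge (2 * Real.log L / c)
  refine ⟨E0, fun E hE => ?_⟩
  have hE' : (E0 : ℝ) ≤ E := by exact_mod_cast hE
  have h1 : 2 * Real.log L / c ≤ E := hE0.trans hE'
  rw [div_le_iff₀ hc] at h1
  have h2 : L = Real.exp (Real.log L) := (Real.exp_log (by linarith)).symm
  rw [h2, ← Real.exp_add]
  refine Real.exp_le_exp.2 ?_
  linarith

/-- Packet `LV`. -/
theorem lv (hG : StmtGV) (hCOB : StmtCOB) (hCMA : StmtCMA) (hERA : StmtERA) : StmtLV := by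
  intro A0 K0 C η hC hη
  obtain ⟨CB, hCB1, hCB⟩ := Pool.Agent.Helper31.RR.cb
  obtain ⟨_, C', _, hC'1, hma⟩ := Pool.Agent.Helper24.PP.ma
  obtain ⟨c2, hc2, E2, hER⟩ := hERA A0 (CB * C') (by nlinarith only [hCB1, hC'1])
  obtain ⟨C3, hC3, E3, hCO⟩ := hCOB A0 K0
  set η' : ℝ := min η 1 / 2 with hη'
  have hη'0 : 0 < η' := by rw [hη']; have := lt_min hη one_pos; linarith only [this]
  have hη'1 : η' ≤ 1 / 2 := by rw [hη']; have := min_le_right η 1; linarith only [this]
  have hη'2 : η' ≤ η := by rw [hη']; have := min_le_left η 1; linarith only [hη, this]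
  obtain ⟨E4, hCM⟩ := hCMA η' hη'0
  obtain ⟨c5, hc5, E5, hGV⟩ := hG K0
  obtain ⟨c6, hc6, hom⟩ := Pool.Agent.Helper74.PP.om_lower
  obtain ⟨E6, hex⟩ := exp_abs c2 (C ^ 2) hc2 (by nlinarith only [hC])
  obtain ⟨E7, hbad⟩ := bad_small (64 * C3 / η' ^ 3) (by positivity)
  refine ⟨c2 / 2, by positivity, max (max (max E2 E3) (max E4 E5)) (max (max E6 E7) 64),
    fun E z x y hE hS b hb P B hP hBy hPB hBK hPA j hj hjP hjB T κ hAd => ?_⟩
  have hE2 : E2 ≤ E := by
    exact ((le_max_left _ _).trans (le_max_left _ _)).trans ((le_max_left _ _).trans hE)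
  have hE3 : E3 ≤ E := by
    exact ((le_max_right _ _).trans (le_max_left _ _)).trans ((le_max_left _ _).trans hE)
  have hE4 : E4 ≤ E := by
    exact ((le_max_left _ _).trans (le_max_right _ _)).trans ((le_max_left _ _).trans hE)
  have hE5 : E5 ≤ E := by
    exact ((le_max_right _ _).trans (le_max_right _ _)).trans ((le_max_left _ _).trans hE)
  have hE6 : E6 ≤ E := by
    exact ((le_max_left _ _).trans (le_max_left _ _)).trans ((le_max_right _ _).trans hE)
  have hE7 : E7 ≤ E := by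
    exact ((le_max_right _ _).trans (le_max_left _ _)).trans ((le_max_right _ _).trans hE)
  have hE8 : 64 ≤ E := (le_max_right _ _).trans ((le_max_right _ _).trans hE)
  have hEr : (64 : ℝ) ≤ E := by exact_mod_cast hE8
  obtain ⟨hm1, hqm, _, hM2, hK6, _, hVV⟩ := (hGV E hE5).1
  -- `z`
  obtain ⟨hzE, hzx, _, hlxy, _, _⟩ := id hS
  have hzE' : (E : ℝ) + 1 ≤ z := (Real.add_one_le_exp _).trans hzE
  have hzE2 : E + 1 ≤ z := by exact_mod_cast hzE'
  have hz2 : 2 ≤ z := by omega
  have hV1 := (hVV z hz2).1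
  -- `x`
  have hx2 : 2 ≤ x := by
    have h8 : z ^ 1 ≤ z ^ E := Nat.pow_le_pow_right (by omega) (by omega)
    rw [pow_one] at h8
    omega
  have hlogzE : (E : ℝ) ≤ Real.log z := by
    rw [Real.le_log_iff_exp_le (by linarith only [hη'0, hη'1, hEr, hzE'])]
    exact hzE
  have hlogz : 0 < Real.log z := by linarith only [hη'0, hη'1, hEr, hlogzE]
  have hlogx : (E : ℝ) * Real.log z ≤ Real.log x := by
    have h7 : Real.log ((z ^ E : ℕ) : ℝ) ≤ Real.log x :=
      Real.log_le_log (by positivity) (by exact_mod_cast hzx)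
    rw [Nat.cast_pow, Real.log_pow] at h7
    exact h7
  -- `y`
  have hyE : E ≤ y := by
    have : (E : ℝ) ≤ y := by nlinarith only [hη'0, hη'1, hEr, hlxy, hlogx, hlogzE]
    exact_mod_cast this
  have hPy : P.card ≤ y := by
    refine (Finset.card_le_card hP).trans ?_
    simp
  set m := mE E with hm
  set q := qE E with hq
  -- parameters of the error term
  set K : ℕ := 2 * (E / 32 / m + K0 + 2) with hK
  have hK3 : K ^ 3 ≤ E := by
    have h7 : 1 ≤ K := by
      rw [hK]
      exact Nat.succ_le_of_lt (by positivity)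
    exact (Nat.pow_le_pow_right h7 (by norm_num)).trans hK6
  have hKm : 2 * (E / 32 / m) + K0 ≤ K := by omega
  set N := NI (x / 32) x (QQ x) b with hN
  have hmom := moment hC hCB1 hC'1 E z x y j m q K K0 P B N hPB hBK (by omega) hz2 hm1 hqm hKm
    (fun d hd => (hCB m q (E / 32) z hm1 hz2 (by omega) hV1 d hd).1)
    (fun d hd => (hCB m q (E / 32) z hm1 hz2 (by omega) hV1 d hd).2)
    (hma z (E / 32) hz2 (by omega)).2.1 T κ hAd
  have hjU : j ∉ P ∪ B := by
    rw [Finset.mem_union]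
    rintro (h | h)
    · exact hjP h
    · exact hjB h
  have her := hER E z x y hE2 hS b hb K hK3 (P ∪ B) (Finset.union_subset hP hBy) j hj hjU
  have hmain := hmom.trans (mul_le_mul_of_nonneg_left her (by positivity))
  -- the size of `om`
  set o : ℝ := om y z with ho
  have homl : 1 / (c6 * Real.log z) ≤ o := (hom y z hz2).1
  have ho0 : 0 < o := lt_of_lt_of_le (by positivity) homl
  set X : ℝ := XI (x / 32) x (QQ x) with hX
  have hX0 : 0 ≤ X := XI_nonneg _ _ _
  set A : ℝ := X * (o / E) * o ^ B.card with hA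
  have hA0 : 0 ≤ A := by rw [hA]; positivity
  have hexp : C ^ 2 * (Real.exp (-(c2 * E)) * X) ≤ Real.exp (-(c2 / 2 * E)) * X := by
    rw [← mul_assoc]
    exact mul_le_mul_of_nonneg_right (hex E hE6) hX0
  -- the mean square
  have hDt : D1 E z y P = DB m q (E / 32) z y P := rfl
  have hD1 : 1 ≤ D1 E z y P := by
    rw [hDt]
    exact one_le_DB m q (E / 32) z y hPy
  set D := D1 E z y P with hD
  set ν := NH B T κ with hν
  have hν0 : 0 ≤ ν := by
    rw [hν]
    unfold NH
    positivity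
  set μ : ℝ := (P.card : ℝ) * o with hμ
  have hμ0 : 0 ≤ μ := by positivity
  set k0 : ℝ := 4 * ((E / 32 / m : ℕ) + 1) with hk0
  have hk0p : 0 < k0 := by positivity
  set w : ℕ → ℝ := fun n => if ∀ i ∈ B, Rg y z (n + i) then pw x (n + j) else 0 with hw
  have hw0 : ∀ n, 0 ≤ w n := by
    intro n
    rw [hw]
    simp only
    split_ifs
    · exact pw_nonneg _ _
    · exact le_rfl
  have hw1 : ∀ n, w n ≤ 1 := by
    intro n
    rw [hw]
    simp only
    split_ifs
    · exact pw_le_one _ _ hx2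
    · exact zero_le_one
  have hwz : ∀ n, ¬ ((n + j).Prime ∧ ∀ i ∈ B, Rg y z (n + i)) → w n = 0 := by
    intro n hn
    rw [hw]
    simp only
    split_ifs with h
    · unfold pw
      rw [if_neg]
      exact fun h' => hn ⟨h', h⟩
    · rfl
  -- the good integers
  set good : ℕ → Prop := fun n => μ ≤ √E ∨ μ * (1 - η' / k0) ≤ (Sn y z P n).card with hgood
  have hgoodD : ∀ n, good n → (1 - η') * D ≤ DS' m q (E / 32) z P (Sn y z P n) := by
    intro n hn
    exact hCM E z y hE4 hz2 hyE P (Sn y z P n) (Finset.filter_subset _ _) hn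
  -- the bad integers
  have hbadsum : ∑ n ∈ N.filter (fun n => ¬ good n), w n ≤ η' / 2 * A := by
    rcases le_or_gt μ (√E) with hsm | hlg
    · have h7 : N.filter (fun n => ¬ good n) = ∅ := by
        refine Finset.filter_eq_empty_iff.2 fun n _ h => h (Or.inl hsm)
      rw [h7, Finset.sum_empty]
      positivity
    · have hsq1 : 1 ≤ √(E : ℝ) := by
        rw [Real.one_le_sqrt]
        linarith only [hη'0, hη'1, hEr]
      have hμ1 : 1 ≤ μ := by linarith only [hlg, hsq1]
      have hco := hCO E z x y hE3 hS b hb P B hP hBy hPB hBK hPA j hj hjP hjB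
      have h8 : ∑ n ∈ N.filter (fun n => ¬ good n), w n * (μ * (η' / k0)) ^ 2 ≤
          ∑ n ∈ N.filter (fun n => (n + j).Prime ∧ ∀ i ∈ B, Rg y z (n + i)),
            (((P.filter (fun h => Rg y z (n + h))).card : ℝ) - P.card * o) ^ 2 := by
        rw [← Finset.sum_filter_add_sum_filter_not (N.filter (fun n => ¬ good n))
          (fun n => (n + j).Prime ∧ ∀ i ∈ B, Rg y z (n + i))]
        rw [Finset.sum_eq_zero (s := (N.filter (fun n => ¬ good n)).filter
          (fun n => ¬ ((n + j).Prime ∧ ∀ i ∈ B, Rg y z (n + i))))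
          (fun n hn => by rw [hwz n (Finset.mem_filter.1 hn).2, zero_mul]), add_zero]
        refine le_trans (Finset.sum_le_sum (g := fun n =>
          (((P.filter (fun h => Rg y z (n + h))).card : ℝ) - P.card * o) ^ 2) fun n hn => ?_)
          (Finset.sum_le_sum_of_subset_of_nonneg ?_ fun n _ _ => sq_nonneg _)
        · have hn1 := (Finset.mem_filter.1 (Finset.mem_filter.1 hn).1).2
          have hng : ¬ (μ ≤ √E ∨ μ * (1 - η' / k0) ≤ (Sn y z P n).card) := hn1
          push Not at hng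
          have h11 : ((Sn y z P n).card : ℝ) < μ * (1 - η' / k0) := hng.2
          have h12 : μ * (η' / k0) ≤ μ - ((Sn y z P n).card : ℝ) := by
            have : μ * (1 - η' / k0) = μ - μ * (η' / k0) := by ring
            linarith only [hng]
          have h13 : 0 ≤ μ * (η' / k0) := by positivity
          have h14 : (μ * (η' / k0)) ^ 2 ≤ (μ - ((Sn y z P n).card : ℝ)) ^ 2 :=
            pow_le_pow_left₀ h13 h12 2
          calc w n * (μ * (η' / k0)) ^ 2 ≤ 1 * (μ * (η' / k0)) ^ 2 :=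
                mul_le_mul_of_nonneg_right (hw1 n) (sq_nonneg _)
            _ ≤ (μ - ((Sn y z P n).card : ℝ)) ^ 2 := by rw [one_mul]; exact h14
            _ = (((P.filter (fun h => Rg y z (n + h))).card : ℝ) - P.card * o) ^ 2 := by
                rw [hμ]
                unfold Sn
                ring
        · intro n hn
          have h9 := Finset.mem_filter.1 hn
          exact Finset.mem_filter.2 ⟨(Finset.mem_filter.1 h9.1).1, h9.2⟩
      rw [← Finset.sum_mul] at h8
      have h17 : (∑ n ∈ N.filter (fun n => ¬ good n), w n) * (μ * (η' / k0)) ^ 2 ≤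
          C3 * A * (μ + 1) := h8.trans hco
      -- arithmetic
      have hbd := hbad E hE7 (E / 32 / m)
        ((Nat.pow_le_pow_left (by omega) 6).trans hK6)
      have h18 : 64 * C3 * (((E / 32 / m : ℕ) : ℝ) + 1) ^ 2 ≤ η' ^ 3 * μ := by
        have h19 : 64 * C3 / η' ^ 3 * (((E / 32 / m : ℕ) : ℝ) + 1) ^ 2 ≤ μ := hbd.trans hlg.le
        have h20 : 64 * C3 * (((E / 32 / m : ℕ) : ℝ) + 1) ^ 2 =
            η' ^ 3 * (64 * C3 / η' ^ 3 * (((E / 32 / m : ℕ) : ℝ) + 1) ^ 2) := by
          field_simp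
        rw [h20]
        exact mul_le_mul_of_nonneg_left h19 (by positivity)
      have hk2 : k0 ^ 2 = 16 * (((E / 32 / m : ℕ) : ℝ) + 1) ^ 2 := by rw [hk0]; ring
      have h21 : 4 * C3 * k0 ^ 2 ≤ η' ^ 3 * μ := by rw [hk2]; linarith only [h18]
      have h22 : C3 * A * (μ + 1) ≤ η' / 2 * A * (μ * (η' / k0)) ^ 2 := by
        have h23 : C3 * (μ + 1) ≤ η' / 2 * (μ * (η' / k0)) ^ 2 := by
          have h24 : η' / 2 * (μ * (η' / k0)) ^ 2 = η' ^ 3 * μ * μ / (2 * k0 ^ 2) := by
            field_simp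
          rw [h24, le_div_iff₀ (by positivity)]
          have h25 : 4 * C3 * k0 ^ 2 * μ ≤ η' ^ 3 * μ * μ := mul_le_mul_of_nonneg_right h21 hμ0
          have h26 : C3 * (μ + 1) * (2 * k0 ^ 2) ≤ 4 * C3 * k0 ^ 2 * μ := by
            have h27 : 0 ≤ C3 * k0 ^ 2 := by positivity
            nlinarith only [hη'0, hη'1, hlg, h27, hsq1]
          linarith only [h25, h26]
        calc C3 * A * (μ + 1) = A * (C3 * (μ + 1)) := by ring
          _ ≤ A * (η' / 2 * (μ * (η' / k0)) ^ 2) := mul_le_mul_of_nonneg_left h23 hA0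
          _ = η' / 2 * A * (μ * (η' / k0)) ^ 2 := by ring
      have h28 : 0 < (μ * (η' / k0)) ^ 2 := by positivity
      exact le_of_mul_le_mul_right (h17.trans h22) h28
  -- assembly
  have hlow : (1 - η') * D * (∑ n ∈ N, w n - η' / 2 * A) ≤
      ∑ n ∈ N, w n * DS' m q (E / 32) z P (Sn y z P n) := by
    have h7 : ∑ n ∈ N.filter good, w n * ((1 - η') * D) ≤
        ∑ n ∈ N, w n * DS' m q (E / 32) z P (Sn y z P n) := by
      refine le_trans (Finset.sum_le_sum (g := fun n =>
        w n * DS' m q (E / 32) z P (Sn y z P n)) fun n hn => ?_)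
        (Finset.sum_le_sum_of_subset_of_nonneg (Finset.filter_subset _ _) fun n _ _ =>
          mul_nonneg (hw0 _) (DS'_nonneg _ _ _ _ _ _))
      exact mul_le_mul_of_nonneg_left (hgoodD n (Finset.mem_filter.1 hn).2) (hw0 _)
    rw [← Finset.sum_mul] at h7
    have h8 := Finset.sum_filter_add_sum_filter_not N good (fun n => w n)
    have h9 : ∑ n ∈ N, w n - η' / 2 * A ≤ ∑ n ∈ N.filter good, w n := by
      linarith only [hbadsum, h8]
    have h10 : 0 ≤ (1 - η') * D := mul_nonneg (by linarith only [hη'0, hη'1]) (by linarith only [hη'0, hη'1, hD1])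
    calc (1 - η') * D * (∑ n ∈ N, w n - η' / 2 * A) ≤
          (1 - η') * D * ∑ n ∈ N.filter good, w n := mul_le_mul_of_nonneg_left h9 h10
      _ = (∑ n ∈ N.filter good, w n) * ((1 - η') * D) := by ring
      _ ≤ _ := h7
  have hW : ∑ n ∈ N, pw x (n + j) * (W1 E z y P n ^ 2 * VH y z B T κ n ^ 2) =
      ∑ n ∈ N, pw x (n + j) * (WB m q (E / 32) z y P n ^ 2 * VH y z B T κ n ^ 2) := rfl
  rw [hW]
  have h7 := (abs_le.1 hmain).1
  have hS0 : 0 ≤ ∑ n ∈ N, w n := Finset.sum_nonneg fun n _ => hw0 n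
  set s0 := ∑ n ∈ N, w n with hs0
  set W := ∑ n ∈ N, pw x (n + j) * (WB m q (E / 32) z y P n ^ 2 * VH y z B T κ n ^ 2) with hWd
  set V := ∑ n ∈ N, w n * DS' m q (E / 32) z P (Sn y z P n) with hVd
  have h8 : ν * ((1 - η') * D * (s0 - η' / 2 * A)) - Real.exp (-(c2 / 2 * E)) * X ≤ W := by
    have h9 : ν * ((1 - η') * D * (s0 - η' / 2 * A)) ≤ ν * V :=
      mul_le_mul_of_nonneg_left hlow hν0
    have h10 : -(C ^ 2 * (Real.exp (-(c2 * E)) * X)) ≤ W - ν * V := h7
    linarith only [hexp, h7, h9]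
  refine le_trans ?_ h8
  have h10 : D * ν * ((1 - η) * s0 - η * A) ≤ ν * ((1 - η') * D * (s0 - η' / 2 * A)) := by
    have e0 : ν * ((1 - η') * D * (s0 - η' / 2 * A)) =
        D * ν * ((1 - η') * (s0 - η' / 2 * A)) := by ring
    rw [e0]
    refine mul_le_mul_of_nonneg_left ?_ (mul_nonneg (by linarith only [hη'0, hη'1, hD1]) hν0)
    have e1 : (1 - η) * s0 ≤ (1 - η') * s0 := mul_le_mul_of_nonneg_right (by linarith only [hη'2]) hS0
    have e2 : η' * A ≤ η * A := mul_le_mul_of_nonneg_right hη'2 hA0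
    have e3 : 0 ≤ η' * (η' / 2 * A) := by positivity
    nlinarith only [e1, e2, e3, hη, hA0]
  linarith only [h10]

end Pool.Agent.Helper54.MC
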